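import Pool.Agent.Lib.MP_7a0cb1_an.Carl

/-!
# Inner functions invertible in the Douglas algebra `D_b` satisfy the Carleson condition

Every inner function which is invertible in `D_b = H^∞ + Mult(L_b^∞)` is, up to a unimodular
constant, a finite product of interpolating Blaschke products.
-/

namespace Pool.Agent.Results.MP_7a0cb1_an.InvertibleCarleson

open Pool.Agent.Lib.MP_7a0cb1_an

theorem result : ∀ I : Circ → ℂ, IsInner I → InvertibleInDb I → CarlesonCondition I :=
  invertible_carleson

end Pool.Agent.Results.MP_7a0cb1_an.InvertibleCarleson
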